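import Pool.Agent.Lib.MP_df72c7_an.CX17

universe u

/-- A separable infinite-dimensional Banach space, real or complex, which is linearly isometric to
each of its closed infinite-dimensional subspaces is linearly isometric to `ℓ²`. -/
theorem Pool.Agent.Results.MP_df72c7_an.BothScalars.result :
    (∀ (X : Type u) [NormedAddCommGroup X] [NormedSpace ℝ X] [CompleteSpace X]
      [TopologicalSpace.SeparableSpace X], ¬ FiniteDimensional ℝ X →
      (∀ Y : Submodule ℝ X, IsClosed (Y : Set X) → ¬ FiniteDimensional ℝ Y →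
        Nonempty (Y ≃ₗᵢ[ℝ] X)) →
      Nonempty (X ≃ₗᵢ[ℝ] lp (fun _ : ℕ => ℝ) 2)) ∧
    (∀ (X : Type u) [NormedAddCommGroup X] [NormedSpace ℂ X] [CompleteSpace X]
      [TopologicalSpace.SeparableSpace X], ¬ FiniteDimensional ℂ X →
      (∀ Y : Submodule ℂ X, IsClosed (Y : Set X) → ¬ FiniteDimensional ℂ Y →
        Nonempty (Y ≃ₗᵢ[ℂ] X)) →
      Nonempty (X ≃ₗᵢ[ℂ] lp (fun _ : ℕ => ℂ) 2)) :=
  ⟨fun _ _ _ _ _ hX h => DF72.real_case hX h,
    fun _ _ _ _ _ hX h => PoolAgent.MP_df72c7_an.complex_case hX h⟩
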